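import Pool.Agent.H6.NE.Stm3

/-! Part LZ of project NE: a finite `p`-group of class `c < p` is a quotient of a unipotent group. -/

set_option autoImplicit false

open Finset

namespace H59.NE

open H6.NE

section words

variable {K M M' : Type} [Fintype K] [AddCommGroup M] [AddCommGroup M']

/-- sum over the words of length `l` -/
noncomputable def WS : ℕ → (List K → M) → M
  | 0, φ => φ []
  | l + 1, φ => ∑ k : K, WS l (fun w => φ (k :: w))

lemma WS_congr : ∀ (l : ℕ) (φ ψ : List K → M), (∀ w, w.length = l → φ w = ψ w) → WS l φ = WS l ψ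
  | 0, φ, ψ, h => h [] rfl
  | l + 1, φ, ψ, h => by
    unfold WS
    exact Finset.sum_congr rfl fun k _ => WS_congr l _ _ fun w hw => h _ (by simp [hw])

lemma WS_snoc : ∀ (l : ℕ) (φ : List K → M),
    WS (l + 1) φ = ∑ k : K, WS l (fun w => φ (w ++ [k]))
  | 0, φ => by simp [WS]
  | l + 1, φ => by
    have h : WS (l + 1 + 1) φ = ∑ k : K, WS (l + 1) (fun w => φ (k :: w)) := rfl
    rw [h]
    have h2 : ∀ k : K, WS (l + 1) (fun w => φ (k :: w)) =
        ∑ j : K, WS l (fun w => φ (k :: (w ++ [j]))) := fun k => WS_snoc l _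
    simp only [h2]
    rw [Finset.sum_comm]
    rfl

lemma WS_map (F : M →+ M') : ∀ (l : ℕ) (φ : List K → M), F (WS l φ) = WS l (fun w => F (φ w))
  | 0, φ => rfl
  | l + 1, φ => by
    unfold WS
    rw [map_sum]
    exact Finset.sum_congr rfl fun k _ => WS_map F l _

lemma WS_add : ∀ (l : ℕ) (φ ψ : List K → M), WS l (fun w => φ w + ψ w) = WS l φ + WS l ψ
  | 0, φ, ψ => rfl
  | l + 1, φ, ψ => by
    unfold WS
    rw [← Finset.sum_add_distrib]
    exact Finset.sum_congr rfl fun k _ => WS_add l _ _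

lemma WS_neg (l : ℕ) (φ : List K → M) : WS l (fun w => - φ w) = - WS l φ :=
  (WS_map (negAddMonoidHom) l φ).symm

lemma WS_sub (l : ℕ) (φ ψ : List K → M) : WS l (fun w => φ w - ψ w) = WS l φ - WS l ψ := by
  have : (fun w => φ w - ψ w) = fun w => φ w + (- ψ w) := by
    funext w; exact sub_eq_add_neg _ _
  rw [this, WS_add, WS_neg, sub_eq_add_neg]

lemma WS_sum (l : ℕ) (φ : K → List K → M) :
    WS l (fun w => ∑ k : K, φ k w) = ∑ k : K, WS l (φ k) := by
  induction l generalizing φ with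
  | zero => rfl
  | succ l ih =>
    unfold WS
    rw [Finset.sum_comm]
    exact Finset.sum_congr rfl fun k _ => ih _

lemma WS_smul {R : Type} [Semiring R] [Module R M] (c : R) : ∀ (l : ℕ) (φ : List K → M),
    c • WS l φ = WS l (fun w => c • φ w)
  | 0, φ => rfl
  | l + 1, φ => by
    unfold WS
    rw [Finset.smul_sum]
    exact Finset.sum_congr rfl fun k _ => WS_smul c l _

/-- the operator of a word -/
def ow (a : K → M →+ M) : List K → M →+ M
  | [] => AddMonoidHom.id M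
  | k :: w => (ow a w).comp (a k)

lemma ow_cons (a : K → M →+ M) (k : K) (w : List K) (v : M) : ow a (k :: w) v = ow a w (a k v) :=
  rfl

lemma ow_snoc (a : K → M →+ M) (k : K) : ∀ (w : List K) (v : M),
    ow a (w ++ [k]) v = a k (ow a w v)
  | [], v => rfl
  | j :: w, v => by
    rw [List.cons_append, ow_cons, ow_cons, ow_snoc a k w]

/-- the element of a word -/
def dw (a : K → M →+ M) (i0 : K → M) : List K → M
  | [] => 0
  | k :: w => ow a w (i0 k)

lemma dw_snoc (a : K → M →+ M) (i0 : K → M) (k : K) : ∀ (w : List K), w ≠ [] →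
    dw a i0 (w ++ [k]) = a k (dw a i0 w)
  | [], h => absurd rfl h
  | j :: w, _ => by
    rw [List.cons_append]
    exact ow_snoc a k w _

end words

/-- homomorphisms respect the lower central series -/
lemma lc_map {G H : Type} [Group G] [Group H] (φ : G →* H) : ∀ (n : ℕ), ∀ x ∈ lc G n, φ x ∈ lc H n
  | 0, x, _ => by
    change φ x ∈ (⊤ : Subgroup H)
    trivial
  | n + 1, x, hx => by
    have h1 : lc G (n + 1) ≤ (lc H (n + 1)).comap φ := by
      change Subgroup.closure _ ≤ _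
      rw [Subgroup.closure_le]
      rintro y ⟨a, ha, g, rfl⟩
      change φ (cm a g) ∈ lc H (n + 1)
      refine Subgroup.subset_closure ⟨φ a, lc_map φ n a ha, φ g, ?_⟩
      simp [cm]
    exact h1 hx

/-- GR with scalars -/
lemma GR' (hGRC : S_GRC) (hGR : S_GR) (Γ : Type) [Group Γ] (n : ℕ) (hexp : ∀ g : Γ, g ^ n = 1) :
    ∃ (M : Type) (_ : AddCommGroup M) (_ : Module (ZMod n) M) (I : ℕ → Γ → M)
      (A : ℕ → Γ → M →+ M),
      (∀ i, ∀ g ∈ lc Γ i, ∀ h ∈ lc Γ i, I i (g * h) = I i g + I i h) ∧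
      (∀ i, ∀ g ∈ lc Γ i, (I i g = 0 ↔ g ∈ lc Γ (i + 1))) ∧
      (∀ i l, ∀ g ∈ lc Γ i, ∀ b ∈ lc Γ l, A l b (I i g) = I (i + l + 1) (cm g b)) ∧
      (∀ l, ∀ b ∈ lc Γ l, ∀ b' ∈ lc Γ l, A l (b * b') = A l b + A l b') ∧
      (∀ l, ∀ b ∈ lc Γ l, ∀ f : Γ, ∀ v,
        A (l + 1) (cm b f) v = A 0 f (A l b v) - A l b (A 0 f v)) := by
  classical
  obtain ⟨Gr, _, ι, A, h1, h2, h3, h4, h5⟩ := hGR Γ
  have hι1 : ∀ i, ι i 1 = 0 := fun i => (h2 i 1 (one_mem _)).2 (one_mem _)
  have hpow : ∀ i, ∀ g ∈ lc Γ i, ∀ m : ℕ, ι i (g ^ m) = m • ι i g := by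
    intro i g hg m
    induction m with
    | zero => simp [hι1]
    | succ m ih => rw [pow_succ, h1 i _ (pow_mem hg m) _ hg, ih, succ_nsmul]
  have htor : ∀ i, ∀ g ∈ lc Γ i, n • ι i g = 0 := by
    intro i g hg
    rw [← hpow i g hg n, hexp, hι1]
  set T : AddSubgroup Gr := (nsmulAddMonoidHom (α := Gr) n).ker with hT
  have hTm : ∀ x, x ∈ T ↔ n • x = 0 := fun x => Iff.rfl
  have hst : ∀ (F : Gr →+ Gr), ∀ x ∈ T, F x ∈ T := by
    intro F x hx
    rw [hTm] at hx ⊢
    rw [← map_nsmul, hx, map_zero]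
  let R : (Gr →+ Gr) → (T →+ T) := fun F =>
    (F.comp T.subtype).codRestrict T (fun x => hst F x x.2)
  have hR : ∀ F (x : T), ((R F x : T) : Gr) = F x := fun F x => rfl
  letI : Module (ZMod n) T := AddCommGroup.zmodModule (fun x => Subtype.ext (by
    have := (hTm x).1 x.2
    rw [AddSubgroup.coe_nsmul]
    exact this))
  let I : ℕ → Γ → T := fun i g => if h : g ∈ lc Γ i then ⟨ι i g, htor i g h⟩ else 0
  have hI : ∀ i g, g ∈ lc Γ i → ((I i g : T) : Gr) = ι i g := by
    intro i g hg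
    simp [I, hg]
  refine ⟨T, inferInstance, inferInstance, I, fun l b => R (A l b), ?_, ?_, ?_, ?_, ?_⟩
  · intro i g hg h hh
    apply Subtype.ext
    rw [AddSubgroup.coe_add, hI i _ (mul_mem hg hh), hI i _ hg, hI i _ hh, h1 i g hg h hh]
  · intro i g hg
    rw [← h2 i g hg, ← hI i g hg]
    exact ⟨fun h => by rw [h]; rfl, fun h => Subtype.ext h⟩
  · intro i l g hg b hb
    apply Subtype.ext
    rw [hR, hI i g hg, hI _ _ ((hGRC Γ).1 i l g hg b hb), h3 i l g hg b hb]
  · intro l b hb b' hb'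
    ext x
    rw [hR, h4 l b hb b' hb']
    rfl
  · intro l b hb f v
    apply Subtype.ext
    rw [hR, h5 l b hb f v]
    rfl

section pows

variable {p N : ℕ} {S : Type} [Ring S] [Algebra (ZMod (p ^ N)) S]
  {J : Submodule (ZMod (p ^ N)) S}

lemma Jmul {x y : S} {i j : ℕ} (hx : x ∈ J ^ i) (hy : y ∈ J ^ j) : x * y ∈ J ^ (i + j) := by
  rw [pow_add]
  exact Submodule.mul_mem_mul hx hy

lemma Jle (hJJ : J * J ≤ J) (n : ℕ) : J ^ (n + 2) ≤ J ^ (n + 1) := by
  have h1 : J ^ (n + 2) = J ^ n * (J * J) := by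
    rw [pow_succ, pow_succ, mul_assoc]
  rw [h1, pow_succ]
  exact mul_le_mul' le_rfl hJJ

lemma Jle' (hJJ : J * J ≤ J) (n m : ℕ) (h : n ≤ m) : J ^ (m + 1) ≤ J ^ (n + 1) := by
  induction m, h using Nat.le_induction with
  | base => exact le_rfl
  | succ m _ ih => exact (Jle hJJ m).trans ih

end pows

section key

variable {p N c : ℕ} {K S Γ : Type} [Group Γ] [Ring S] [Algebra (ZMod (p ^ N)) S]
  {J : Submodule (ZMod (p ^ N)) S} (u : Γ →* Sˣ)

/-- `u b - 1` -/
def ht (b : Γ) : S := ((u b : Sˣ) : S) - 1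

lemma ht_one : ht u (1 : Γ) = 0 := by simp [ht]

lemma ht_mul (a b : Γ) : ht u (a * b) = ht u a + ht u b + ht u a * ht u b := by
  simp only [ht, map_mul, Units.val_mul]
  noncomm_ring

lemma ht_cm (a b : Γ) : ht u (cm a b) =
    (ht u a * ht u b - ht u b * ht u a) * (1 + ht u (a⁻¹ * b⁻¹)) := by
  have h1 : (ht u a * ht u b - ht u b * ht u a) =
      ((u a : Sˣ) : S) * ((u b : Sˣ) : S) - ((u b : Sˣ) : S) * ((u a : Sˣ) : S) := by
    simp only [ht]
    noncomm_ring
  have h2 : (1 : S) + ht u (a⁻¹ * b⁻¹) = (((u a)⁻¹ : Sˣ) : S) * (((u b)⁻¹ : Sˣ) : S) := by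
    simp only [ht, map_mul, map_inv, Units.val_mul]
    abel
  rw [h1, h2, sub_mul]
  have h3 : ((u b : Sˣ) : S) * ((u a : Sˣ) : S) * ((((u a)⁻¹ : Sˣ) : S) * (((u b)⁻¹ : Sˣ) : S)) = 1 := by
    rw [mul_assoc, ← mul_assoc ((u a : Sˣ) : S), Units.mul_inv, one_mul, Units.mul_inv]
  rw [h3]
  simp only [ht, cm, map_mul, map_inv, Units.val_mul, mul_assoc]

variable {u}

lemma ht_mem (hJJ : J * J ≤ J) (huJ : ∀ g, ht u g ∈ J) : ∀ (l : ℕ), ∀ b ∈ lc Γ l,
    ht u b ∈ J ^ (l + 1)
  | 0, b, _ => by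
    rw [zero_add, pow_one]
    exact huJ b
  | l + 1, b, hb => by
    have key : ∀ x ∈ J ^ (l + 1 + 1), ∀ y ∈ J, x * (1 + y) ∈ J ^ (l + 1 + 1) := by
      intro x hx y hy
      rw [mul_add, mul_one]
      refine add_mem hx ?_
      have h1 : x * y ∈ J ^ (l + 1 + 1 + 1) := Jmul (j := 1) hx (by rwa [pow_one])
      exact Jle hJJ (l + 1) h1
    change b ∈ Subgroup.closure _ at hb
    induction hb using Subgroup.closure_induction with
    | mem x hx =>
      obtain ⟨a, ha, g, rfl⟩ := hx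
      rw [ht_cm]
      refine key _ ?_ _ (huJ _)
      have h1 := ht_mem hJJ huJ l a ha
      have h2 : ht u g ∈ J ^ 1 := by rw [pow_one]; exact huJ g
      refine sub_mem (Jmul h1 h2) ?_
      have := Jmul h2 h1
      rwa [add_comm 1 (l + 1)] at this
    | one => rw [ht_one]; exact zero_mem _
    | mul x y _ _ hx hy =>
      rw [ht_mul]
      refine add_mem (add_mem hx hy) ?_
      have h1 := Jmul hx hy
      have h2 : l + 1 + 1 + (l + 1 + 1) = (l + 1 + (l + 1 + 1)) + 1 := by ring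
      rw [h2] at h1
      exact Jle' hJJ (l + 1) (l + 1 + (l + 1 + 1)) (by omega) h1
    | inv x _ hx =>
      have h1 := ht_mul u x x⁻¹
      rw [mul_inv_cancel, ht_one] at h1
      have h2 : ht u x⁻¹ = - (ht u x * (1 + ht u x⁻¹)) := by
        rw [mul_add, mul_one]
        have h3 : ht u x⁻¹ + (ht u x + ht u x * ht u x⁻¹) = 0 := by
          rw [h1]; abel
        exact eq_neg_of_add_eq_zero_left h3
      rw [h2]
      exact neg_mem (key _ hx _ (huJ _))

/-- the conditions on the coefficients -/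
structure Cf (p N c : ℕ) (K : Type) {S : Type} [Ring S] [Algebra (ZMod (p ^ N)) S]
    (J : Submodule (ZMod (p ^ N)) S) (ξ : K → S)
    (cf : List K → S →ₗ[ZMod (p ^ N)] ZMod (p ^ N)) : Prop where
  JJ : J * J ≤ J
  z : ∀ j, 0 < j → ∀ s ∈ J ^ (j + 1), ∀ w : List K, w.length = j → cf w s = 0
  m : ∀ i j, 0 < i → 0 < j → i + j ≤ c → ∀ s ∈ J ^ i, ∀ t ∈ J ^ j, ∀ v w : List K, v.length = i →
    w.length = j → cf (v ++ w) (s * t) = cf v s * cf w t
  a : ∀ x, cf [x] (ξ x) = 1
  b : ∀ x y, x ≠ y → cf [x] (ξ y) = 0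

variable {ξ : K → S} {cf : List K → S →ₗ[ZMod (p ^ N)] ZMod (p ^ N)}

lemma cf_mul (hC : Cf p N c K J ξ cf) (huJ : ∀ g, ht u g ∈ J) {l : ℕ} {b b' : Γ}
    (hb : b ∈ lc Γ l) (hb' : b' ∈ lc Γ l) {w : List K} (hw : w.length = l + 1) :
    cf w (ht u (b * b')) = cf w (ht u b) + cf w (ht u b') := by
  rw [ht_mul, map_add, map_add]
  have h1 := Jmul (ht_mem hC.JJ huJ l b hb) (ht_mem hC.JJ huJ l b' hb')
  have h2 : l + 1 + (l + 1) = (l + (l + 1)) + 1 := by ring
  rw [h2] at h1
  have h3 := Jle' hC.JJ (l + 1) (l + (l + 1)) (by omega) h1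
  rw [hC.z (l + 1) (by omega) _ h3 w hw, add_zero]

lemma cf_inv (hC : Cf p N c K J ξ cf) (huJ : ∀ g, ht u g ∈ J) {l : ℕ} {b : Γ}
    (hb : b ∈ lc Γ l) {w : List K} (hw : w.length = l + 1) :
    cf w (ht u b⁻¹) = - cf w (ht u b) := by
  have h1 := cf_mul hC huJ hb (inv_mem hb) hw
  rw [mul_inv_cancel, ht_one, map_zero] at h1
  exact eq_neg_of_add_eq_zero_right h1.symm

lemma cf_cm (hC : Cf p N c K J ξ cf) (huJ : ∀ g, ht u g ∈ J) {l : ℕ} {b : Γ}
    (hb : b ∈ lc Γ l) (g : Γ) {w : List K} (hw : w.length = l + 2) :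
    cf w (ht u (cm b g)) = cf w (ht u b * ht u g) - cf w (ht u g * ht u b) := by
  rw [ht_cm, mul_add, mul_one, map_add, map_sub]
  have h1 := ht_mem hC.JJ huJ l b hb
  have h2 : ht u g ∈ J ^ 1 := by rw [pow_one]; exact huJ g
  have h3 : ht u b * ht u g - ht u g * ht u b ∈ J ^ (l + 1 + 1) := by
    refine sub_mem (Jmul h1 h2) ?_
    have := Jmul h2 h1
    rwa [add_comm 1 (l + 1)] at this
  have h4 : ht u (b⁻¹ * g⁻¹) ∈ J ^ 1 := by rw [pow_one]; exact huJ _
  rw [hC.z (l + 2) (by omega) _ (Jmul h3 h4) w hw, add_zero]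

variable [Fintype K] {M : Type} [AddCommGroup M] [Module (ZMod (p ^ N)) M]

/-- the sum of a function on the words with the coefficients of a commutator -/
lemma WS_cm (hC : Cf p N c K J ξ cf) (huJ : ∀ g, ht u g ∈ J) {l : ℕ} (hl : l + 2 ≤ c) {b : Γ}
    (hb : b ∈ lc Γ l) (g : Γ) (φ : List K → M) :
    WS (l + 2) (fun w => cf w (ht u (cm b g)) • φ w) =
      ∑ k : K, cf [k] (ht u g) • (WS (l + 1) (fun w => cf w (ht u b) • φ (w ++ [k]))) -
        ∑ k : K, cf [k] (ht u g) • (WS (l + 1) (fun w => cf w (ht u b) • φ (k :: w))) := by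
  have h1 := ht_mem hC.JJ huJ l b hb
  have h2 : ht u g ∈ J ^ 1 := by rw [pow_one]; exact huJ g
  have e1 : WS (l + 2) (fun w => cf w (ht u (cm b g)) • φ w) =
      WS (l + 2) (fun w => cf w (ht u b * ht u g) • φ w - cf w (ht u g * ht u b) • φ w) := by
    apply WS_congr
    intro w hw
    rw [cf_cm hC huJ hb g hw, sub_smul]
  rw [e1, WS_sub]
  congr 1
  · rw [WS_snoc]
    apply Finset.sum_congr rfl
    intro k _
    rw [WS_smul]
    apply WS_congr
    intro w hw
    rw [hC.m (l + 1) 1 (by omega) (by omega) (by omega) _ h1 _ h2 w [k] hw rfl, smul_smul, mul_comm]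
  · change ∑ k : K, WS (l + 1) (fun w => cf (k :: w) (ht u g * ht u b) • φ (k :: w)) = _
    apply Finset.sum_congr rfl
    intro k _
    rw [WS_smul]
    apply WS_congr
    intro w hw
    have e3 := hC.m 1 (l + 1) (by omega) (by omega) (by omega) _ h2 _ h1 [k] w rfl hw
    rw [List.singleton_append] at e3
    rw [e3, smul_smul]

variable {I : ℕ → Γ → M} {A : ℕ → Γ → M →+ M} {f : K → Γ}

/-- additive functions on `lc Γ l` -/
lemma ind0 (hgen : Subgroup.closure (Set.range f) = ⊤) (P : Γ → Prop) (h1 : ∀ k, P (f k))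
    (hm : ∀ a b, P a → P b → P (a * b)) (hi : ∀ a, P a → P a⁻¹) (ho : P 1) : ∀ g, P g := by
  intro g
  have hg : g ∈ Subgroup.closure (Set.range f) := by rw [hgen]; trivial
  induction hg using Subgroup.closure_induction with
  | mem x hx => obtain ⟨k, rfl⟩ := hx; exact h1 k
  | one => exact ho
  | mul x y _ _ hx hy => exact hm x y hx hy
  | inv x _ hx => exact hi x hx

/-- level zero, with values in an additive group -/
lemma lev0 [DecidableEq K] (hC : Cf p N c K J ξ cf) (huJ : ∀ g, ht u g ∈ J)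
    (hgen : Subgroup.closure (Set.range f) = ⊤) (huf : ∀ k, ht u (f k) = ξ k) (F : Γ → M)
    (hF : ∀ a b, F (a * b) = F a + F b) (g : Γ) :
    F g = ∑ k : K, cf [k] (ht u g) • F (f k) := by
  have hF1 : F 1 = 0 := by
    have := hF 1 1
    rw [mul_one] at this
    exact (left_eq_add.1 this)
  have hFi : ∀ a, F a⁻¹ = - F a := by
    intro a
    have := hF a a⁻¹
    rw [mul_inv_cancel, hF1] at this
    exact eq_neg_of_add_eq_zero_right this.symm
  refine ind0 (f := f) hgen (fun g => F g = ∑ k : K, cf [k] (ht u g) • F (f k)) ?_ ?_ ?_ ?_ g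
  · intro k
    rw [Finset.sum_eq_single k]
    · rw [huf, hC.a, one_smul]
    · intro j _ hj
      rw [huf, hC.b j k hj, zero_smul]
    · intro h; exact absurd (Finset.mem_univ k) h
  · intro a b ha hb
    rw [hF]
    conv_lhs => rw [ha, hb]
    rw [← Finset.sum_add_distrib]
    apply Finset.sum_congr rfl
    intro k _
    have h1 : cf [k] (ht u (a * b)) = cf [k] (ht u a) + cf [k] (ht u b) :=
      cf_mul (l := 0) hC huJ (Subgroup.mem_top a) (Subgroup.mem_top b) rfl
    rw [h1, add_smul]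
  · intro a ha
    rw [hFi]
    conv_lhs => rw [ha]
    rw [← Finset.sum_neg_distrib]
    apply Finset.sum_congr rfl
    intro k _
    have h1 : cf [k] (ht u a⁻¹) = - cf [k] (ht u a) :=
      cf_inv (l := 0) hC huJ (Subgroup.mem_top a) rfl
    rw [h1, neg_smul]
  · change F 1 = _
    rw [hF1]
    symm
    apply Finset.sum_eq_zero
    intro k _
    rw [ht_one, map_zero, zero_smul]

/-- (A): the operator of `b` is the combination of the operators of the words -/
lemma partA [DecidableEq K] (hC : Cf p N c K J ξ cf) (huJ : ∀ g, ht u g ∈ J)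
    (hgen : Subgroup.closure (Set.range f) = ⊤) (huf : ∀ k, ht u (f k) = ξ k)
    (h4 : ∀ l, ∀ b ∈ lc Γ l, ∀ b' ∈ lc Γ l, A l (b * b') = A l b + A l b')
    (h5 : ∀ l, ∀ b ∈ lc Γ l, ∀ f : Γ, ∀ v,
        A (l + 1) (cm b f) v = A 0 f (A l b v) - A l b (A 0 f v)) :
    ∀ l, l + 1 ≤ c → ∀ b ∈ lc Γ l, ∀ v : M,
      A l b v = WS (l + 1) (fun w => cf w (ht u b) • ow (fun k => A 0 (f k)) w v)
  | 0, _, b, _, v => by
    have h := lev0 (M := M) hC huJ hgen huf (fun g => A 0 g v) (fun a b => by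
      change A 0 (a * b) v = A 0 a v + A 0 b v
      rw [h4 0 a (Subgroup.mem_top a) b (Subgroup.mem_top b)]; rfl) b
    rw [h]
    rfl
  | l + 1, hl, b, hb, v => by
    have hone : A (l + 1) 1 = 0 := by
      have := h4 (l + 1) 1 (one_mem _) 1 (one_mem _)
      rw [mul_one] at this
      exact (left_eq_add.1 this)
    -- induction over the generators of the next term
    have hb' : b ∈ Subgroup.closure {x | ∃ a ∈ lc Γ l, ∃ g : Γ, x = cm a g} := hb
    induction hb' using Subgroup.closure_induction with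
    | mem x hx =>
      obtain ⟨a, ha, g, rfl⟩ := hx
      have ihl := partA hC huJ hgen huf h4 h5 l (by omega) a ha
      have h0 := partA hC huJ hgen huf h4 h5 0 (by omega) g (Subgroup.mem_top g)
      have h0' : ∀ v, A 0 g v = ∑ k : K, cf [k] (ht u g) • A 0 (f k) v := fun v => by
        rw [h0 v]; rfl
      rw [WS_cm hC huJ (by omega) ha g, h5 l a ha g v]
      congr 1
      · rw [h0']
        apply Finset.sum_congr rfl
        intro k _
        congr 1
        rw [ihl v, WS_map]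
        apply WS_congr
        intro w _
        rw [ZMod.map_smul, ow_snoc]
      · rw [h0', map_sum]
        apply Finset.sum_congr rfl
        intro k _
        rw [ZMod.map_smul]
        congr 1
        rw [ihl]
        rfl
    | one =>
      rw [hone]
      symm
      have : (fun w => cf w (ht u (1 : Γ)) • ow (fun k => A 0 (f k)) w v) = fun _ : List K => (0 : M) := by
        funext w
        rw [ht_one, map_zero, zero_smul]
      rw [this]
      have h := WS_map (K := K) (0 : M →+ M) (l + 1 + 1) (fun _ => (0 : M))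
      simpa using h.symm
    | mul x y hx hy ihx ihy =>
      have hx' : x ∈ lc Γ (l + 1) := hx
      have hy' : y ∈ lc Γ (l + 1) := hy
      rw [h4 (l + 1) x hx' y hy']
      change A (l + 1) x v + A (l + 1) y v = _
      rw [ihx hx', ihy hy', ← WS_add]
      apply WS_congr
      intro w hw
      rw [cf_mul hC huJ hx' hy' hw, add_smul]
    | inv x hx ihx =>
      have hx' : x ∈ lc Γ (l + 1) := hx
      have h := h4 (l + 1) x hx' x⁻¹ (inv_mem hx')
      rw [mul_inv_cancel, hone] at h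
      have h' : A (l + 1) x⁻¹ = - A (l + 1) x := eq_neg_of_add_eq_zero_right h.symm
      rw [h']
      change - (A (l + 1) x v) = _
      rw [ihx hx', ← WS_neg]
      apply WS_congr
      intro w hw
      rw [cf_inv hC huJ hx' hw, neg_smul]

/-- (B): the class of `b` -/
lemma partB [DecidableEq K] (hC : Cf p N c K J ξ cf) (huJ : ∀ g, ht u g ∈ J)
    (hgen : Subgroup.closure (Set.range f) = ⊤) (huf : ∀ k, ht u (f k) = ξ k)
    (h1 : ∀ i, ∀ g ∈ lc Γ i, ∀ h ∈ lc Γ i, I i (g * h) = I i g + I i h)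
    (h3 : ∀ i l, ∀ g ∈ lc Γ i, ∀ b ∈ lc Γ l, A l b (I i g) = I (i + l + 1) (cm g b))
    (h4 : ∀ l, ∀ b ∈ lc Γ l, ∀ b' ∈ lc Γ l, A l (b * b') = A l b + A l b')
    (h5 : ∀ l, ∀ b ∈ lc Γ l, ∀ f : Γ, ∀ v,
        A (l + 1) (cm b f) v = A 0 f (A l b v) - A l b (A 0 f v)) :
    ∀ l, l + 1 ≤ c → ∀ b ∈ lc Γ l,
      (l + 1) • I l b =
        WS (l + 1) (fun w => cf w (ht u b) • dw (fun k => A 0 (f k)) (fun k => I 0 (f k)) w)
  | 0, _, b, _ => by
    have h := lev0 (M := M) hC huJ hgen huf (fun g => I 0 g) (fun a b =>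
      h1 0 a (Subgroup.mem_top a) b (Subgroup.mem_top b)) b
    rw [zero_add, one_smul, h]
    rfl
  | l + 1, hl, b, hb => by
    have hone : I (l + 1) (1 : Γ) = 0 := by
      have := h1 (l + 1) 1 (one_mem _) 1 (one_mem _)
      rw [mul_one] at this
      exact (left_eq_add.1 this)
    have hinv : ∀ x ∈ lc Γ (l + 1), I (l + 1) x⁻¹ = - I (l + 1) x := by
      intro x hx
      have h := h1 (l + 1) x hx x⁻¹ (inv_mem hx)
      rw [mul_inv_cancel, hone] at h
      exact eq_neg_of_add_eq_zero_right h.symm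
    have hb' : b ∈ Subgroup.closure {x | ∃ a ∈ lc Γ l, ∃ g : Γ, x = cm a g} := hb
    induction hb' using Subgroup.closure_induction with
    | mem x hx =>
      obtain ⟨a, ha, g, rfl⟩ := hx
      have hx' : cm a g ∈ lc Γ (l + 1) := hb
      have ihl := partB hC huJ hgen huf h1 h3 h4 h5 l (by omega) a ha
      have hA := partA hC huJ hgen huf h4 h5 l (by omega) a ha
      have h0 := partA hC huJ hgen huf h4 h5 0 (by omega) g (Subgroup.mem_top g)
      have h0' : ∀ v, A 0 g v = ∑ k : K, cf [k] (ht u g) • A 0 (f k) v := fun v => by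
        rw [h0 v]; rfl
      have hB0 : I 0 g = ∑ k : K, cf [k] (ht u g) • I 0 (f k) :=
        lev0 (M := M) hC huJ hgen huf (fun g => I 0 g) (fun a b =>
          h1 0 a (Subgroup.mem_top a) b (Subgroup.mem_top b)) g
      rw [WS_cm hC huJ (by omega) ha g]
      have e1 : ∑ k : K, cf [k] (ht u g) • (WS (l + 1) (fun w => cf w (ht u a) •
          dw (fun k => A 0 (f k)) (fun k => I 0 (f k)) (w ++ [k]))) = (l + 1) • I (l + 1) (cm a g) := by
        have e2 : A 0 g ((l + 1) • I l a) = (l + 1) • I (l + 1) (cm a g) := by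
          rw [map_nsmul, h3 l 0 a ha g (Subgroup.mem_top g), add_zero]
        rw [← e2, h0', ihl]
        apply Finset.sum_congr rfl
        intro k _
        congr 1
        rw [WS_map]
        apply WS_congr
        intro w hw
        rw [ZMod.map_smul, dw_snoc _ _ _ w (by rintro rfl; simp at hw)]
      have e3 : ∑ k : K, cf [k] (ht u g) • (WS (l + 1) (fun w => cf w (ht u a) •
          dw (fun k => A 0 (f k)) (fun k => I 0 (f k)) (k :: w))) = - I (l + 1) (cm a g) := by
        have e4 : A l a (I 0 g) = - I (l + 1) (cm a g) := by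
          rw [h3 0 l g (Subgroup.mem_top g) a ha, ← hinv _ hx', zero_add]
          congr 1
          simp only [cm]
          group
        rw [← e4, hB0, map_sum]
        apply Finset.sum_congr rfl
        intro k _
        rw [ZMod.map_smul]
        congr 1
        rw [hA]
        rfl
      rw [e1, e3, sub_neg_eq_add, succ_nsmul]
    | one =>
      rw [hone, smul_zero]
      symm
      have : (fun w => cf w (ht u (1 : Γ)) • dw (fun k => A 0 (f k)) (fun k => I 0 (f k)) w) =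
          fun _ : List K => (0 : M) := by
        funext w
        rw [ht_one, map_zero, zero_smul]
      rw [this]
      have h := WS_map (K := K) (0 : M →+ M) (l + 1 + 1) (fun _ => (0 : M))
      simpa using h.symm
    | mul x y hx hy ihx ihy =>
      have hx' : x ∈ lc Γ (l + 1) := hx
      have hy' : y ∈ lc Γ (l + 1) := hy
      rw [h1 (l + 1) x hx' y hy', smul_add, ihx hx', ihy hy', ← WS_add]
      apply WS_congr
      intro w hw
      rw [cf_mul hC huJ hx' hy' hw, add_smul]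
    | inv x hx ihx =>
      have hx' : x ∈ lc Γ (l + 1) := hx
      rw [hinv x hx', smul_neg, ihx hx', ← WS_neg]
      apply WS_congr
      intro w hw
      rw [cf_inv hC huJ hx' hw, neg_smul]

end key

lemma cop (m p N : ℕ) (hp : p.Prime) (h0 : 0 < m) (hm : m < p) : m.Coprime (p ^ N) :=
  Nat.Coprime.pow_right N (Nat.coprime_of_lt_prime (by omega) hm hp).symm

lemma unitC {p N : ℕ} {M : Type} [AddCommGroup M] [Module (ZMod (p ^ N)) M] (hp : p.Prime)
    (m : ℕ) (h0 : 0 < m) (hm : m < p) (x : M) (hx : m • x = 0) : x = 0 := by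
  have h1 : ((ZMod.unitOfCoprime m (cop m p N hp h0 hm) : (ZMod (p ^ N))ˣ) : ZMod (p ^ N)) • x = 0 := by
    rw [ZMod.coe_unitOfCoprime, Nat.cast_smul_eq_nsmul, hx]
  generalize (ZMod.unitOfCoprime m (cop m p N hp h0 hm)) = U at h1
  have := congrArg (fun y => ((U⁻¹ : (ZMod (p ^ N))ˣ) : ZMod (p ^ N)) • y) h1
  simpa [smul_smul] using this

lemma dvdC (p N : ℕ) (hp : p.Prime) (m : ℕ) (h0 : 0 < m) (hm : m < p) :
    p ^ N ∣ (p ^ N).choose m := by
  obtain ⟨j, rfl⟩ : ∃ j, m = j + 1 := ⟨m - 1, by omega⟩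
  obtain ⟨q, hq⟩ : ∃ q, p ^ N = q + 1 := ⟨p ^ N - 1, by have := Nat.pow_pos (n := N) hp.pos; omega⟩
  have h := Nat.add_one_mul_choose_eq q j
  rw [← hq] at h
  have h2 : p ^ N ∣ (p ^ N).choose (j + 1) * (j + 1) := ⟨_, h.symm⟩
  exact Nat.Coprime.dvd_of_dvd_mul_right (cop (j + 1) p N hp h0 hm).symm h2

/-- unipotent elements have exponent `p ^ N` -/
lemma powU {p N c : ℕ} (hp : p.Prime) {S : Type} [Ring S] [Algebra (ZMod (p ^ N)) S] (x : S)
    (hc : c < p) (hx : x ^ (c + 1) = 0) : (x + 1) ^ (p ^ N) = 1 := by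
  rw [(Commute.one_right x).add_pow, Finset.sum_eq_single 0]
  · simp
  · intro m _ hm
    by_cases h : m ≤ c
    · obtain ⟨q, hq⟩ := dvdC p N hp m (by omega) (by omega)
      have h1 : (((p ^ N).choose m : ℕ) : S) = 0 := by
        have h2 : (((p ^ N).choose m : ℕ) : ZMod (p ^ N)) = 0 := by
          rw [hq, Nat.cast_mul, ZMod.natCast_self, zero_mul]
        have h3 := congrArg (algebraMap (ZMod (p ^ N)) S) h2
        simpa using h3
      rw [h1, mul_zero]
    · have h1 : x ^ m = 0 := pow_eq_zero_of_le (by omega) hx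
      rw [h1, zero_mul, zero_mul]
  · intro h
    simp at h

theorem t_LZ (hGR : S_GR) (hGRC : S_GRC) (hFR : S_FR) : S_LZ := by
  classical
  intro p N c hpf hc hcp K _ _ hK hcard
  have hp : p.Prime := hpf.out
  haveI : Fintype K := Fintype.ofFinite K
  obtain ⟨S, _, _, _, J, ξ, cf, hJJ, hJc, hξ, hz, -, hm, ha, hb⟩ := hFR p N c K
  have hC : Cf p N c K J ξ cf := ⟨hJJ, hz, hm, fun x => ha x hc, hb⟩
  have hnil : ∀ x ∈ J, x ^ (c + 1) = 0 := by
    intro x hx
    have h1 := Submodule.pow_mem_pow J hx (c + 1)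
    rw [hJc] at h1
    exact (Submodule.mem_bot _).1 h1
  have hunit : ∀ k, IsUnit (1 + ξ k) := fun k =>
    IsNilpotent.isUnit_one_add ⟨c + 1, hnil _ (hξ k)⟩
  choose v hv using hunit
  let f0 : K → Sˣ × K := fun k => (v k, k)
  let F1 : Subgroup (Sˣ × K) := Subgroup.closure (Set.range f0)
  let f : K → F1 := fun k => ⟨f0 k, Subgroup.subset_closure ⟨k, rfl⟩⟩
  let u : F1 →* Sˣ := (MonoidHom.fst Sˣ K).comp F1.subtype
  have hgen : Subgroup.closure (Set.range f) = ⊤ := by
    have h1 : Set.range f = (Subtype.val ⁻¹' (Set.range f0) : Set F1) := by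
      ext ⟨x, hx⟩
      constructor
      · rintro ⟨k, hk⟩
        exact ⟨k, congrArg Subtype.val hk⟩
      · rintro ⟨k, hk⟩
        exact ⟨k, Subtype.ext hk⟩
    rw [h1]
    exact Subgroup.closure_closure_coe_preimage
  have huf : ∀ k, ht u (f k) = ξ k := by
    intro k
    change ((v k : Sˣ) : S) - 1 = ξ k
    rw [hv]
    abel
  have hUmul : ∀ a b : Sˣ, (a : S) - 1 ∈ J → (b : S) - 1 ∈ J → ((a * b : Sˣ) : S) - 1 ∈ J := by
    intro a b h1 h2
    have h3 : ((a * b : Sˣ) : S) - 1 = ((a : S) - 1) + ((b : S) - 1) + ((a : S) - 1) * ((b : S) - 1) := by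
      rw [Units.val_mul]
      noncomm_ring
    rw [h3]
    exact add_mem (add_mem h1 h2) (hJJ (Submodule.mul_mem_mul h1 h2))
  have hUpow : ∀ (a : Sˣ), (a : S) - 1 ∈ J → ∀ n : ℕ, ((a ^ n : Sˣ) : S) - 1 ∈ J := by
    intro a h1 n
    induction n with
    | zero => simp
    | succ n ih => rw [pow_succ]; exact hUmul _ _ ih h1
  have hUinv : ∀ (a : Sˣ), (a : S) - 1 ∈ J → ((a⁻¹ : Sˣ) : S) - 1 ∈ J := by
    intro a h1
    obtain ⟨n, hn, h2⟩ := (isOfFinOrder_iff_pow_eq_one).1 (isOfFinOrder_of_finite a)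
    have h3 : a⁻¹ = a ^ (n - 1) := by
      rw [inv_eq_iff_mul_eq_one, ← pow_succ', Nat.sub_add_cancel hn, h2]
    rw [h3]
    exact hUpow a h1 _
  have huJ : ∀ g, ht u g ∈ J := by
    refine ind0 (f := f) hgen (fun g => ht u g ∈ J) ?_ ?_ ?_ ?_
    · intro k
      change ht u (f k) ∈ J
      rw [huf]
      exact hξ k
    · intro a b h1 h2
      change (((u (a * b)) : Sˣ) : S) - 1 ∈ J
      rw [map_mul]
      exact hUmul _ _ h1 h2
    · intro a h1
      change (((u a⁻¹) : Sˣ) : S) - 1 ∈ J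
      rw [map_inv]
      exact hUinv _ h1
    · change ht u 1 ∈ J
      rw [ht_one]
      exact zero_mem _
  have hexp : ∀ g : F1, g ^ (p ^ N) = 1 := by
    intro g
    apply Subtype.ext
    apply Prod.ext
    · apply Units.ext
      have h1 := powU (N := N) hp (ht u g) hcp (hnil _ (huJ g))
      have h2 : ht u g + 1 = ((u g : Sˣ) : S) := by simp [ht]
      rw [h2] at h1
      have h3 : (((g ^ (p ^ N) : F1) : Sˣ × K).1 : S) = ((u g : Sˣ) : S) ^ (p ^ N) := by
        rw [← Units.val_pow_eq_pow_val, ← map_pow]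
        rfl
      rw [h3, h1]
      rfl
    · have h1 : (((g ^ (p ^ N) : F1) : Sˣ × K).2) = ((g : Sˣ × K).2) ^ (p ^ N) := rfl
      rw [h1]
      exact orderOf_dvd_iff_pow_eq_one.1 ((orderOf_dvd_natCard _).trans hcard)
  obtain ⟨M, _, _, I, A, h1, h2, h3, h4, h5⟩ := GR' hGRC hGR F1 (p ^ N) hexp
  have key : ∀ l, l + 1 ≤ c → ∀ b ∈ lc F1 l, ht u b = 0 → b ∈ lc F1 (l + 1) := by
    intro l hl b hb hb0
    have hB := partB (M := M) hC huJ hgen huf h1 h3 h4 h5 l hl b hb
    have hz : (fun w => cf w (ht u b) • dw (fun k => A 0 (f k)) (fun k => I 0 (f k)) w) =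
          fun _ : List K => (0 : M) := by
      funext w
      rw [hb0, map_zero, zero_smul]
    rw [hz] at hB
    have h0 : WS (K := K) (l + 1) (fun _ => (0 : M)) = 0 := by
      have h := WS_map (K := K) (0 : M →+ M) (l + 1) (fun _ => (0 : M))
      simpa using h.symm
    rw [h0] at hB
    exact (h2 l b hb).1 (unitC (p := p) (N := N) hp (l + 1) (by omega) (by omega) _ hB)
  have hinj : ∀ g : F1, u g = 1 → g = 1 := by
    intro g hg
    have h0 : ht u g = 0 := by rw [ht, hg]; simp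
    have hl : ∀ l, l ≤ c → g ∈ lc F1 l := by
      intro l
      induction l with
      | zero => intro _; exact Subgroup.mem_top g
      | succ l ih => intro hl; exact key l hl g (ih (by omega)) h0
    have hK2 : ((g : Sˣ × K).2) ∈ lc K c :=
      lc_map ((MonoidHom.snd Sˣ K).comp F1.subtype) c g (hl c le_rfl)
    rw [hK, Subgroup.mem_bot] at hK2
    apply Subtype.ext
    exact Prod.ext hg hK2
  have hinj' : Function.Injective u := (injective_iff_map_eq_one u).2 hinj
  let e : F1 ≃* u.range := MulEquiv.ofBijective u.rangeRestrict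
    ⟨fun a b hab => hinj' (congrArg Subtype.val hab), u.rangeRestrict_surjective⟩
  refine ⟨S, inferInstance, inferInstance, J, u.range,
    ((MonoidHom.snd Sˣ K).comp F1.subtype).comp e.symm.toMonoidHom, inferInstance,
    ⟨hJJ, hcp, hJc, ?_⟩, ?_⟩
  · rintro h ⟨g, rfl⟩
    exact huJ g
  · intro k
    refine ⟨e (f k), ?_⟩
    change ((e.symm (e (f k)) : F1) : Sˣ × K).2 = k
    rw [MulEquiv.symm_apply_apply]

end H59.NE
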