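import Pool.Agent.H6.NE.Stm2

/-! Part STEP of project NE: the counting of one step of the chain. -/

set_option autoImplicit false

open Finset

namespace H59.NE

open H6.NE

lemma absres {R E k' : Type} [CommRing R] [AddCommGroup E] [Module R E] [AddCommGroup k']
    [Module R k'] (A B : Submodule R E) (h : A ≤ B) (res0 : k' →ₗ[R] A)
    (hs : Function.Surjective res0) : ∃ res : k' →ₗ[R] B,
      (∀ y, ((res y : B) : E) = ((res0 y : A) : E)) ∧
      (∀ y : B, (y : E) ∈ A → y ∈ LinearMap.range res) ∧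
      LinearMap.ker res = LinearMap.ker res0 := by
  refine ⟨(Submodule.inclusion h).comp res0, fun y => rfl, ?_, ?_⟩
  · intro y hy
    obtain ⟨z, hz⟩ := hs ⟨y, hy⟩
    refine ⟨z, Subtype.ext ?_⟩
    change ((res0 z : A) : E) = y
    rw [hz]
  · apply LinearMap.ker_comp_of_ker_eq_bot
    exact Submodule.ker_inclusion _ _ h

lemma abslen {R E k' : Type} [CommRing R] [AddCommGroup E] [Module R E] [AddCommGroup k']
    [Module R k'] (p : ℕ) (A : Submodule R E) (res0 : k' →ₗ[R] A)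
    (hs : Function.Surjective res0) : ln p (LinearMap.range res0) = ln p A := by
  unfold ln
  rw [LinearMap.range_eq_top.2 hs,
    Nat.card_congr (Submodule.topEquiv (R := R) (M := A)).toEquiv]

theorem t_STEP (hMS : S_MS) (hRES : S_RES) (hSTC : S_STC) (hSTG : S_STG) (hNRM : S_NRM)
    (hCNT : S_CNT) (hBND : S_BND) (hNOD : S_NOD) (hLEN : S_LEN) (hNIL : S_NIL) : S_STEP := by
  classical
  intro p N hpf hN G V _ _ _ _ _ ρ e h2e h2p hG hOrb K F hF Gd r hInv F' hF' hFF hJ'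
  obtain ⟨L1, -, -, -, -, -, -, -⟩ := hLEN p N
  obtain ⟨-, -, N3, -, -⟩ := hNIL p N G V ρ
  have hfin : ∀ (W : Type) [AddCommGroup W] [Module (ZMod (p ^ N)) W] [Finite W],
      Finite (Module.End (ZMod (p ^ N)) W) := by
    intro W _ _ _
    exact Finite.of_injective (fun f : Module.End (ZMod (p ^ N)) W => (f : W → W))
      DFunLike.coe_injective
  have : Finite (V ⧸ F) := Finite.of_surjective F.mkQ F.mkQ_surjective
  have : Finite (V ⧸ F') := Finite.of_surjective F'.mkQ F'.mkQ_surjective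
  have := hfin (V ⧸ F)
  have := hfin (V ⧸ F')
  -- the old stage
  have hold : JV (qr ρ F hF) K (p - 1) = ⊥ := by
    rw [N3 F hF K (p - 1), eq_bot_iff]
    rintro _ ⟨v, hv, rfl⟩
    exact (Submodule.Quotient.mk_eq_zero F).2 (hInv.hJ hv)
  obtain ⟨-, hKK, hker, -, hSK⟩ := hNRM p N hN h2p G (V ⧸ F) (qr ρ F hF) K hInv.nor hold
  -- the new stage
  have hnew : JV (qr ρ F' hF') (Kn (qr ρ F hF) K) (p - 1) = ⊥ := by
    rw [N3 F' hF' _ (p - 1), eq_bot_iff]
    rintro _ ⟨v, hv, rfl⟩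
    exact (Submodule.Quotient.mk_eq_zero F').2 (hJ' hv)
  set K' : Subgroup G := Kn (qr ρ F hF) K with hK'
  -- the projection
  let π : (V ⧸ F') →ₗ[ZMod (p ^ N)] (V ⧸ F) := Submodule.factor hFF
  have hπ : ∀ v : V, π (F'.mkQ v) = F.mkQ v := fun v => rfl
  have hπs : Function.Surjective π := Submodule.factor_surjective hFF
  have hπe : ∀ g v, π (qr ρ F' hF' g v) = qr ρ F hF g (π v) := by
    intro g v
    obtain ⟨v, rfl⟩ := F'.mkQ_surjective v
    rfl
  obtain ⟨-, res0, hres0s, hres0, -⟩ := hRES p N hN h2p G (V ⧸ F) (V ⧸ F') (qr ρ F hF)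
    (qr ρ F' hF') π hπs hπe K' hnew
  -- the inclusion
  obtain ⟨-, -, -, -, hS5, -, -⟩ := hSTG p N hN h2p G (V ⧸ F) (qr ρ F hF) K hold
  have hle : LG (qr ρ F hF) K' ≤ LG (qr ρ F hF) K := (hS5 K' hKK).1
  obtain ⟨res, hresv, hrange, hkerres⟩ := absres (LG (qr ρ F hF) K') (LG (qr ρ F hF) K) hle res0
    hres0s
  have hlen' : ln p (LG (qr ρ F' hF') K') =
      ln p (LinearMap.ker res) + ln p (LG (qr ρ F hF) K') := by
    rw [L1 _ _ res0, hkerres, abslen p _ res0 hres0s]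
  -- good elements: stabilisers in the range
  have hmx : ∀ u ∈ Gd, Mxx (qr ρ F hF) K (F.mkQ u) := hInv.mx
  have hSr : ∀ u ∈ Gd, Sv (bl (qr ρ F hF) K) (F.mkQ u) ≤ LinearMap.range res := by
    intro u hu y hy
    exact hrange y (hSK _ (hmx u hu) y hy)
  have hκ : ∀ u ∈ Gd, ∀ v ∈ Gd, ln p (SG (qr ρ F hF) K (F.mkQ u)) =
      ln p (SG (qr ρ F hF) K (F.mkQ v)) := fun u hu v hv =>
    le_antisymm (hmx u hu _) (hmx v hv _)
  -- indices
  have hidx : (K'.index).factorization p =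
      (K'.relIndex K).factorization p + (K.index).factorization p := by
    rw [← Subgroup.relIndex_mul_index hKK, Nat.factorization_mul, Finsupp.add_apply]
    · exact Subgroup.index_ne_zero_of_finite (H := K'.subgroupOf K)
    · exact Subgroup.index_ne_zero_of_finite
  have hlenk := (hSTC p N hN h2p G (V ⧸ F) (qr ρ F hF) K hold).1 K' hKK hker
  by_cases hex : ∃ u ∈ Gd, Mxx (qr ρ F' hF') K' (F'.mkQ u)
  swap
  · refine ⟨0, ?_, ?_⟩
    · intro u hu hu'
      exact absurd ⟨u, hu, hu'⟩ hex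
    · intro u hu hu'
      exact absurd ⟨u, hu, hu'⟩ hex
  obtain ⟨u0, hu0, hu0'⟩ := hex
  have hB := hBND p N hN h2p G V ρ e hG hOrb K' F' hF' hJ'
  have hB0 := hB.1
  have hr : r ≤ e := ((hBND p N hN h2p G V ρ e hG hOrb K F hF hInv.hJ).2 Gd r hInv).1
  have hSle : ln p (SG (qr ρ F' hF') K' (F'.mkQ u0)) ≤ ln p (LG (qr ρ F' hF') K') := by
    have := (hSTC p N hN h2p G (V ⧸ F') (qr ρ F' hF') K' hnew).2.1 (F'.mkQ u0)
    omega
  obtain ⟨κ', hκ'⟩ : ∃ κ', κ' = ln p (SG (qr ρ F' hF') K' (F'.mkQ u0)) := ⟨_, rfl⟩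
  obtain ⟨κ, hκdef⟩ : ∃ κ, κ = ln p (SG (qr ρ F hF) K (F.mkQ u0)) := ⟨_, rfl⟩
  have hidx0 := hInv.idx u0 hu0
  rw [← hκdef] at hidx0
  rw [← hκ'] at hSle
  have hr' : (K'.index).factorization p + ln p (LG (qr ρ F' hF') K') - κ' + κ' =
      r + κ + ln p (LinearMap.ker res) := by omega
  refine ⟨(K'.index).factorization p + ln p (LG (qr ρ F' hF') K') - κ', ?_, ?_⟩
  · intro u hu hu'
    have : ln p (SG (qr ρ F' hF') K' (F'.mkQ u)) = κ' := by
      rw [hκ']; exact le_antisymm (hu' _) (hu0' _)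
    omega
  · intro u hu hu' x T hT hTc hbad
    have hκ'u : ln p (SG (qr ρ F' hF') K' (F'.mkQ u)) = κ' := by
      rw [hκ']; exact le_antisymm (hu' _) (hu0' _)
    have hκu : ln p (SG (qr ρ F hF) K (F.mkQ u)) = κ := by
      rw [hκdef]; exact hκ u hu u0 hu0
    obtain ⟨T1, hT1⟩ : ∃ T1, T1 = T.filter (fun s => ¬ (x + s • u ∈ Gd)) := ⟨_, rfl⟩
    obtain ⟨B, hBdef⟩ : ∃ B, B = T.filter (fun s => x + s • u ∈ Gd) := ⟨_, rfl⟩
    have hcard : B.card + T1.card = T.card := by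
      rw [hT1, hBdef]
      exact Finset.card_filter_add_card_filter_not _
    have hNd1 : Nd T1 := by
      intro s hs t ht hst
      rw [hT1] at hs ht
      exact hT s (Finset.mem_filter.1 hs).1 t (Finset.mem_filter.1 ht).1 hst
    have hNdB : Nd B := by
      intro s hs t ht hst
      rw [hBdef] at hs ht
      exact hT s (Finset.mem_filter.1 hs).1 t (Finset.mem_filter.1 ht).1 hst
    have hc1 := hInv.cnt u hu x T1 hNd1 (by omega) (fun s hs => by
      rw [hT1] at hs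
      exact (Finset.mem_filter.1 hs).2)
    rw [hκu] at hc1
    -- all nodes
    obtain ⟨hn1, hn2, -, -⟩ := hNOD p N hN
    obtain ⟨A, hA⟩ : ∃ A : Finset (ZMod (p ^ N)),
      A = (Finset.range p).image (fun i : ℕ => (i : ZMod (p ^ N))) := ⟨_, rfl⟩
    rw [← hA] at hn1 hn2
    obtain ⟨T0, hT0⟩ : ∃ T0, T0 = A.filter (fun s => x + s • u ∈ Gd) := ⟨_, rfl⟩
    have hNdA : ∀ C ⊆ A, Nd C := fun C hC s hs t ht hst => hn1 s (hC hs) t (hC ht) hst
    have hbadA : (A.filter (fun s => ¬ (x + s • u ∈ Gd))).card ≤ r :=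
      hCNT p N hN h2p G V ρ e hG hOrb K F hF Gd r hInv u hu x _
        (hNdA _ (Finset.filter_subset _ _)) (fun s hs => (Finset.mem_filter.1 hs).2)
    have hT0c : e ≤ T0.card := by
      have h1 : T0.card + (A.filter (fun s => ¬ (x + s • u ∈ Gd))).card = A.card := by
        rw [hT0]
        exact Finset.card_filter_add_card_filter_not _
      omega
    have hlin : ∀ s : ZMod (p ^ N), π (F'.mkQ x + s • F'.mkQ u) = F.mkQ (x + s • u) := by
      intro s
      rw [map_add, map_smul, hπ, hπ, map_add, map_smul]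
    have hlin' : ∀ s : ZMod (p ^ N), F'.mkQ x + s • F'.mkQ u = F'.mkQ (x + s • u) := by
      intro s
      rw [map_add, map_smul]
    have q1 : ∀ (y : LG (qr ρ F' hF') K') (v : V ⧸ F'),
        π (bl (qr ρ F' hF') K' y v) = bl (qr ρ F hF) K (res y) (π v) := by
      intro y v
      have h1 := hres0 y v
      rw [← hresv y] at h1
      exact h1
    have q2 : ∀ s ∈ T0, Sv (bl (qr ρ F hF) K) (π (F'.mkQ x + s • F'.mkQ u)) ≤
        LinearMap.range res := by
      intro s hs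
      rw [hlin]
      rw [hT0] at hs
      exact hSr _ (Finset.mem_filter.1 hs).2
    have q3 : Sv (bl (qr ρ F hF) K) (π (F'.mkQ u)) ≤ LinearMap.range res := by
      rw [hπ]
      exact hSr u hu
    have q4 : ∀ s ∈ B, Sv (bl (qr ρ F hF) K) (π (F'.mkQ x + s • F'.mkQ u)) ≤
          LinearMap.range res ∧
        ln p (Sv (bl (qr ρ F hF) K) (π (F'.mkQ x + s • F'.mkQ u))) =
          ln p (Sv (bl (qr ρ F hF) K) (π (F'.mkQ u))) ∧
        ln p (Sv (bl (qr ρ F' hF') K') (F'.mkQ u)) + 1 ≤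
          ln p (Sv (bl (qr ρ F' hF') K') (F'.mkQ x + s • F'.mkQ u)) := by
      intro s hs
      rw [hBdef] at hs
      have hs' := (Finset.mem_filter.1 hs)
      rw [hlin, hlin', hπ]
      refine ⟨hSr _ hs'.2, hκ _ hs'.2 u hu, ?_⟩
      have h1 : ¬ Mxx (qr ρ F' hF') K' (F'.mkQ (x + s • u)) := fun h =>
        hbad s hs'.1 ⟨hs'.2, h⟩
      unfold Mxx at h1
      push Not at h1
      obtain ⟨w, hw⟩ := h1
      exact Nat.succ_le_of_lt (lt_of_le_of_lt (hu' w) hw)
    have q5 : ∀ s ∈ A, ln p (Sv (bl (qr ρ F' hF') K') (F'.mkQ u)) ≤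
        ln p (Sv (bl (qr ρ F' hF') K') (F'.mkQ x + s • F'.mkQ u)) := fun s _ => hu' _
    have e1 : ln p (Sv (bl (qr ρ F' hF') K') (F'.mkQ u)) = κ' := hκ'u
    have e2 : ln p (Sv (bl (qr ρ F hF) K) (π (F'.mkQ u))) = κ := hκu
    have q6 : e + ln p (LG (qr ρ F' hF') K') + 1 ≤
        A.card + ln p (Sv (bl (qr ρ F' hF') K') (F'.mkQ u)) := by
      have h1 := hB0 u
      rw [hκ'u] at h1
      rw [e1, hn2]
      omega
    have hms := hMS p N (LG (qr ρ F hF) K) (V ⧸ F) (LG (qr ρ F' hF') K') (V ⧸ F')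
      (bl (qr ρ F hF) K) (bl (qr ρ F' hF') K') π res q1
      (F'.mkQ x) (F'.mkQ u) e T0 B A (hNdA _ (by rw [hT0]; exact Finset.filter_subset _ _)) hT0c
      q2 q3 hNdB (by omega) q4 (hNdA A (le_refl A)) q5 q6
    rw [e1, e2] at hms
    rw [hκ'u]
    have e3 : (e + 1) * κ' = e * κ' + κ' := by ring
    have e4 : (e + 1) * κ = e * κ + κ := by ring
    rw [e3, e4] at hms
    have e5 : ln p (KP (bl (qr ρ F hF) K) (π (F'.mkQ x)) (π (F'.mkQ u)) e) =
      ln p (KP (bl (qr ρ F hF) K) (F.mkQ x) (F.mkQ u) e) := rfl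
    rw [e5] at hms
    omega

end H59.NE
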